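import Pool.Agent.Y453.HB.Stm

/-!
Identity and inverses of Hamiltonian diffeomorphisms (`S_INV`); written by helper510 for
helper453 (project HB).
-/

set_option autoImplicit false

namespace Pool.Agent.Y510.HB

open Set Filter Topology Function Pool.Agent.Y453.HB

theorem XH_zero {n : ℕ} (p : E n) : XH (fun _ : E n => (0 : ℝ)) p = 0 := by
  have h : fderiv ℝ (fun _ : E n => (0 : ℝ)) p = 0 := by
    rw [fderiv_fun_const]
    rfl
  unfold XH
  rw [h]
  apply Prod.ext
  · funext i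
    rfl
  · funext i
    show -((0 : E n →L[ℝ] ℝ) _) = 0
    rw [ContinuousLinearMap.zero_apply, neg_zero]

theorem XH_neg {n : ℕ} (h : E n → ℝ) (p : E n) : XH (fun x => -h x) p = -XH h p := by
  have e : fderiv ℝ (fun x => -h x) p = -fderiv ℝ h p := fderiv_fun_neg
  unfold XH
  rw [e]
  apply Prod.ext
  · funext i
    rfl
  · funext i
    rfl

theorem inv : S_INV := by
  intro n
  refine ⟨⟨fun _ _ => 0, contDiff_const, ⟨∅, isCompact_empty, empty_subset _, fun _ _ _ => rfl⟩,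
    fun _ x => x, fun _ => rfl, fun t x => ?_, fun _ => rfl⟩, ?_⟩
  · rw [XH_zero]
    exact hasDerivAt_const t x
  · rintro u ⟨H, hH, ⟨K, hK, hKQ, hKz⟩, ψ, h0, hd, h1⟩
    refine ⟨fun t x => -H (1 - t) x, ?_, ⟨K, hK, hKQ, fun t x hx => ?_⟩,
      fun t x => ψ (1 - t) (u⁻¹ x), fun x => ?_, fun t x => ?_, fun x => ?_⟩
    · have h2 : ContDiff ℝ ((⊤ : ℕ∞) : WithTop ℕ∞) (fun p : ℝ × E n => (1 - p.1, p.2)) :=
        (contDiff_const.sub contDiff_fst).prodMk contDiff_snd
      exact (hH.comp h2).neg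
    · show -H (1 - t) x = 0
      rw [hKz _ _ hx, neg_zero]
    · show ψ (1 - 0) (u⁻¹ x) = x
      rw [sub_zero, ← h1, apply_inv_self]
    · have e := (hd (1 - t) (u⁻¹ x)).comp_const_sub 1 t
      rw [XH_neg]
      exact e
    · show u⁻¹ x = ψ (1 - 1) (u⁻¹ x)
      rw [sub_self, h0]

end Pool.Agent.Y510.HB
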